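import Pool.Agent.H81.NCH.Stmts

/-!
# NCH, module AVT (MP_f18ce0_lc): tower property of the averages
-/

set_option autoImplicit false

namespace Pool.Agent.H81.NCH

namespace AVT

variable {h m : ℕ}

/-- exchange the coordinates in `S` -/
noncomputable def swp (S : ℕ → ℕ → Prop) (p : Om h m × Om h m) : Om h m × Om h m :=
  (mixS S p.2 p.1, mixS S p.1 p.2)

lemma swp_swp (S : ℕ → ℕ → Prop) : Function.Involutive (swp (h := h) (m := m) S) := by
  intro p
  rcases p with ⟨a, b⟩
  unfold swp
  refine Prod.ext ?_ ?_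
  · funext q
    simp only [mixS]
    split_ifs <;> rfl
  · funext q
    simp only [mixS]
    split_ifs <;> rfl

lemma mix_mix (S S' : ℕ → ℕ → Prop) (hS : ∀ e i, S' e i → S e i) (η η' ω : Om h m) :
    mixS S' η' (mixS S η ω) = mixS S (mixS S' η' η) ω := by
  funext q
  simp only [mixS]
  by_cases h1 : S' q.1 q.2
  · have h2 : S q.1 q.2 := hS _ _ h1
    simp only [if_pos h1, if_pos h2]
  · simp only [if_neg h1]

end AVT

theorem avt_thm : AVTStmt := by
  intro h m S S' F ω hm hS
  have hne : Nonempty (Om h m) := ⟨fun _ => ⟨0, hm⟩⟩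
  have hN : (Fintype.card (Om h m) : ℝ) ≠ 0 := by
    have := Fintype.card_pos (α := Om h m)
    exact_mod_cast this.ne'
  unfold avg
  rw [← Finset.sum_div]
  have key : ∑ η : Om h m, ∑ η' : Om h m, F (mixS S' η' (mixS S η ω)) =
      (Fintype.card (Om h m) : ℝ) * ∑ η : Om h m, F (mixS S η ω) := by
    calc ∑ η : Om h m, ∑ η' : Om h m, F (mixS S' η' (mixS S η ω))
        = ∑ p : Om h m × Om h m, F (mixS S (AVT.swp S' p).1 ω) := by
          rw [Fintype.sum_prod_type]
          refine Finset.sum_congr rfl fun η _ => Finset.sum_congr rfl fun η' _ => ?_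
          rw [AVT.mix_mix S S' hS]
          rfl
      _ = ∑ p : Om h m × Om h m, F (mixS S p.1 ω) :=
          Equiv.sum_comp (Function.Involutive.toPerm _ (AVT.swp_swp S'))
            (fun p : Om h m × Om h m => F (mixS S p.1 ω))
      _ = (Fintype.card (Om h m) : ℝ) * ∑ η : Om h m, F (mixS S η ω) := by
          rw [Fintype.sum_prod_type]
          simp only [Finset.sum_const, Finset.card_univ, nsmul_eq_mul]
          rw [Finset.mul_sum]
  rw [key]
  field_simp

end Pool.Agent.H81.NCH
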