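import Pool.Agent.H81.NCH.Stmts
import Pool.Agent.H81.NCH.Base

/-!
# NCH, module DEC (MP_f18ce0_lc): decomposition along the walk
-/

set_option autoImplicit false

namespace Pool.Agent.H81.NCH

open Pool.Agent.H80

universe u

namespace DEC

variable {K : Type u} [Field K] {n : ℕ} {D : Circuit K (Fin n)}

open Classical in
/-- a decomposition of the function `F` as in the statement -/
def Dec (X : HVal D) (h m : ℕ) (r : ℕ → ℕ → ℕ) (g : ℤ) (e i : ℕ) (v : D.V) (a : ℕ)
    (F : (ℕ → Fin n) → K) : Prop :=
  ∃ (G0 : D.V → ℕ → (ℕ → Fin n) → K) (G : ℕ × ℕ → D.V → ℕ → (ℕ → Fin n) → K),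
    (∀ x a', DepOn (Set.Ico a a' ∪ Set.Ico (a' + X.deg x) (a + X.deg v)) (G0 x a')) ∧
    (∀ p x a', DepOn (Set.Ico a a' ∪ Set.Ico (a' + X.deg x) (a + X.deg v)) (G p x a')) ∧
    (∀ x a', ¬ (MulN X x ∧ a ≤ a' ∧ a' + X.deg x ≤ a + X.deg v ∧
      ¬ Alive h m r a' (a' + X.deg (lft D x)) (a' + X.deg (lft D x) + X.deg (rgt D x))) →
      ∀ w, G0 x a' w = 0) ∧
    (∀ p x a', ¬ (MulN X x ∧ a ≤ a' ∧ a' + X.deg x ≤ a + X.deg v ∧
      Alive h m r a' (a' + X.deg (lft D x)) (a' + X.deg (lft D x) + X.deg (rgt D x)) ∧
      Stop h m p.1 p.2 a' (a' + X.deg (lft D x)) (a' + X.deg (lft D x) + X.deg (rgt D x)) ∧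
      Inside e i p.1 p.2 ∧ p.1 + 10 ≤ h ∧ p.2 < 2 ^ p.1 ∧
      g ≤ Pot h m p.1 p.2 a' (a' + X.deg x)) → ∀ w, G p x a' w = 0) ∧
    ∀ w, F w = ∑ x ∈ Sb X v, ∑ a' ∈ Finset.range (dd h m + 1),
      (G0 x a' w + ∑ p ∈ nds h e i, G p x a' w) * FF X x a' w

variable {X : HVal D} {h m : ℕ} {r : ℕ → ℕ → ℕ} {g : ℤ}

theorem dec_zero (e i : ℕ) (v : D.V) (a : ℕ) : Dec X h m r g e i v a (fun _ => 0) := by
  refine ⟨fun _ _ _ => 0, fun _ _ _ _ => 0, ?_, ?_, ?_, ?_, ?_⟩
  · intro x a' w w' _; rfl
  · intro p x a' w w' _; rfl
  · intro x a' _ w; rfl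
  · intro p x a' _ w; rfl
  · intro w; simp

theorem dec_add {e i : ℕ} {v : D.V} {a : ℕ} {F1 F2 : (ℕ → Fin n) → K}
    (h1 : Dec X h m r g e i v a F1) (h2 : Dec X h m r g e i v a F2) :
    Dec X h m r g e i v a (fun w => F1 w + F2 w) := by
  obtain ⟨G0, G, a1, a2, a3, a4, a5⟩ := h1
  obtain ⟨G0', G', b1, b2, b3, b4, b5⟩ := h2
  refine ⟨fun x a' w => G0 x a' w + G0' x a' w, fun p x a' w => G p x a' w + G' p x a' w,
    ?_, ?_, ?_, ?_, ?_⟩
  · intro x a' w w' hw
    simp only
    rw [a1 x a' w w' hw, b1 x a' w w' hw]
  · intro p x a' w w' hw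
    simp only
    rw [a2 p x a' w w' hw, b2 p x a' w w' hw]
  · intro x a' hx w
    simp only
    rw [a3 x a' hx w, b3 x a' hx w, add_zero]
  · intro p x a' hx w
    simp only
    rw [a4 p x a' hx w, b4 p x a' hx w, add_zero]
  · intro w
    simp only
    rw [a5 w, b5 w, ← Finset.sum_add_distrib]
    refine Finset.sum_congr rfl fun x _ => ?_
    rw [← Finset.sum_add_distrib]
    refine Finset.sum_congr rfl fun a' _ => ?_
    rw [Finset.sum_add_distrib]
    ring

theorem sb_subset {s v : D.V} (j : Fin 2) (hj : (D.gate v).tail j = some s) (hs : X.val s ≠ 0) :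
    Sb X s ⊆ Sb X v := by
  intro u hu
  simp only [Sb, Finset.mem_filter, Finset.mem_univ, true_and] at hu ⊢
  exact Relation.ReflTransGen.tail hu ⟨⟨j, hj⟩, hs⟩

theorem nds_subset {e i e' i' : ℕ} (hI : Inside e i e' i') : nds h e' i' ⊆ nds h e i := by
  intro p hp
  simp only [nds, Finset.mem_filter] at hp ⊢
  exact ⟨hp.1, hp.2.1, hI.trans hp.2.2⟩

open Classical in
theorem dec_lift {e i e' i' : ℕ} {s v : D.V} {a a1 : ℕ} {F Hf : (ℕ → Fin n) → K}
    (hd : Dec X h m r g e' i' s a1 F) (hI : Inside e i e' i') (j : Fin 2)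
    (hj : (D.gate v).tail j = some s) (hs : X.val s ≠ 0) (ha : a ≤ a1)
    (hb : a1 + X.deg s ≤ a + X.deg v)
    (hH : DepOn (Set.Ico a a1 ∪ Set.Ico (a1 + X.deg s) (a + X.deg v)) Hf) :
    Dec X h m r g e i v a (fun w => Hf w * F w) := by
  obtain ⟨G0, G, b1, b2, b3, b4, b5⟩ := hd
  refine ⟨fun x a' w => if x ∈ Sb X s then Hf w * G0 x a' w else 0,
    fun p x a' w => if x ∈ Sb X s ∧ p ∈ nds h e' i' then Hf w * G p x a' w else 0,
    ?_, ?_, ?_, ?_, ?_⟩
  · intro x a' w w' hw
    simp only
    by_cases hx : x ∈ Sb X s
    · rw [if_pos hx, if_pos hx]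
      by_cases hc : MulN X x ∧ a1 ≤ a' ∧ a' + X.deg x ≤ a1 + X.deg s ∧
        ¬ Alive h m r a' (a' + X.deg (lft D x)) (a' + X.deg (lft D x) + X.deg (rgt D x))
      · obtain ⟨-, h1, h2, -⟩ := hc
        have e1 : Hf w = Hf w' := by
          apply hH
          intro t ht
          apply hw
          simp only [Set.mem_union, Set.mem_Ico] at ht ⊢
          omega
        have e2 : G0 x a' w = G0 x a' w' := by
          apply b1
          intro t ht
          apply hw
          simp only [Set.mem_union, Set.mem_Ico] at ht ⊢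
          omega
        rw [e1, e2]
      · rw [b3 x a' hc w, b3 x a' hc w']
        simp
    · rw [if_neg hx, if_neg hx]
  · intro p x a' w w' hw
    simp only
    by_cases hx : x ∈ Sb X s ∧ p ∈ nds h e' i'
    · rw [if_pos hx, if_pos hx]
      by_cases hc : MulN X x ∧ a1 ≤ a' ∧ a' + X.deg x ≤ a1 + X.deg s ∧
        Alive h m r a' (a' + X.deg (lft D x)) (a' + X.deg (lft D x) + X.deg (rgt D x)) ∧
        Stop h m p.1 p.2 a' (a' + X.deg (lft D x)) (a' + X.deg (lft D x) + X.deg (rgt D x)) ∧
        Inside e' i' p.1 p.2 ∧ p.1 + 10 ≤ h ∧ p.2 < 2 ^ p.1 ∧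
        g ≤ Pot h m p.1 p.2 a' (a' + X.deg x)
      · obtain ⟨-, h1, h2, -⟩ := hc
        have e1 : Hf w = Hf w' := by
          apply hH
          intro t ht
          apply hw
          simp only [Set.mem_union, Set.mem_Ico] at ht ⊢
          omega
        have e2 : G p x a' w = G p x a' w' := by
          apply b2
          intro t ht
          apply hw
          simp only [Set.mem_union, Set.mem_Ico] at ht ⊢
          omega
        rw [e1, e2]
      · rw [b4 p x a' hc w, b4 p x a' hc w']
        simp
    · rw [if_neg hx, if_neg hx]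
  · intro x a' hx w
    simp only
    by_cases hxs : x ∈ Sb X s
    · rw [if_pos hxs, b3 x a' ?_ w, mul_zero]
      rintro ⟨h1, h2, h3, h4⟩
      exact hx ⟨h1, by omega, by omega, h4⟩
    · rw [if_neg hxs]
  · intro p x a' hx w
    simp only
    by_cases hxs : x ∈ Sb X s ∧ p ∈ nds h e' i'
    · rw [if_pos hxs, b4 p x a' ?_ w, mul_zero]
      rintro ⟨h1, h2, h3, h4, h5, h6, h7⟩
      exact hx ⟨h1, by omega, by omega, h4, h5, hI.trans h6, h7⟩
    · rw [if_neg hxs]
  · intro w
    simp only
    rw [b5 w, Finset.mul_sum]
    rw [← Finset.sum_subset (sb_subset j hj hs)]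
    · refine Finset.sum_congr rfl fun x hx => ?_
      rw [Finset.mul_sum]
      refine Finset.sum_congr rfl fun a' _ => ?_
      rw [if_pos hx]
      rw [← Finset.sum_subset (nds_subset (h := h) hI)]
      · have h1 : ∑ p ∈ nds h e' i', (if x ∈ Sb X s ∧ p ∈ nds h e' i' then Hf w * G p x a' w else 0)
            = Hf w * ∑ p ∈ nds h e' i', G p x a' w := by
          rw [Finset.mul_sum]
          refine Finset.sum_congr rfl fun p hp => ?_
          rw [if_pos ⟨hx, hp⟩]
        rw [h1]
        ring
      · intro p _ hp
        rw [if_neg]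
        rintro ⟨_, h2⟩
        exact hp h2
    · intro x _ hx
      refine Finset.sum_eq_zero fun a' _ => ?_
      rw [if_neg hx]
      rw [Finset.sum_eq_zero]
      · simp
      · intro p _
        rw [if_neg]
        rintro ⟨h2, _⟩
        exact hx h2

theorem mem_sb (v : D.V) : v ∈ Sb X v := by
  simp only [Sb, Finset.mem_filter, Finset.mem_univ, true_and]
  exact Relation.ReflTransGen.refl

theorem mem_nds {e i : ℕ} (he : e ≤ h) (hi : i < 2 ^ e) : (e, i) ∈ nds h e i := by
  simp only [nds, Finset.mem_filter, Finset.mem_product, Finset.mem_range]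
  refine ⟨⟨by omega, ?_⟩, hi, Inside.refl e i⟩
  exact lt_of_lt_of_le hi (Nat.pow_le_pow_right (by norm_num) he)

open Classical in
theorem dec_dead {e i : ℕ} {v : D.V} {a : ℕ} (hM : MulN X v) (hdd : a ≤ dd h m)
    (hA : ¬ Alive h m r a (a + X.deg (lft D v)) (a + X.deg (lft D v) + X.deg (rgt D v))) :
    Dec X h m r g e i v a (FF X v a) := by
  refine ⟨fun x a' _ => if x = v ∧ a' = a then 1 else 0, fun _ _ _ _ => 0, ?_, ?_, ?_, ?_, ?_⟩
  · intro x a' w w' _; rfl
  · intro p x a' w w' _; rfl
  · intro x a' hx w
    simp only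
    rw [if_neg]
    rintro ⟨rfl, rfl⟩
    exact hx ⟨hM, le_rfl, le_rfl, hA⟩
  · intro p x a' _ w; rfl
  · intro w
    rw [Finset.sum_eq_single v]
    · rw [Finset.sum_eq_single a]
      · simp
      · intro b _ hb
        simp [hb]
      · intro hb
        exact absurd (Finset.mem_range.2 (by omega)) hb
    · intro x _ hx
      refine Finset.sum_eq_zero fun a' _ => ?_
      simp [hx]
    · intro hv
      exact absurd (mem_sb v) hv

open Classical in
theorem dec_stop {e i : ℕ} {v : D.V} {a : ℕ} (hM : MulN X v) (hdd : a ≤ dd h m)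
    (hA : Alive h m r a (a + X.deg (lft D v)) (a + X.deg (lft D v) + X.deg (rgt D v)))
    (hS : Stop h m e i a (a + X.deg (lft D v)) (a + X.deg (lft D v) + X.deg (rgt D v)))
    (he : e + 10 ≤ h) (hi : i < 2 ^ e) (hg : g ≤ Pot h m e i a (a + X.deg v)) :
    Dec X h m r g e i v a (FF X v a) := by
  refine ⟨fun _ _ _ => 0, fun p x a' _ => if p = (e, i) ∧ x = v ∧ a' = a then 1 else 0,
    ?_, ?_, ?_, ?_, ?_⟩
  · intro x a' w w' _; rfl
  · intro p x a' w w' _; rfl
  · intro x a' _ w; rfl
  · intro p x a' hx w
    simp only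
    rw [if_neg]
    rintro ⟨rfl, rfl, rfl⟩
    exact hx ⟨hM, le_rfl, le_rfl, hA, hS, Inside.refl e i, he, hi, hg⟩
  · intro w
    rw [Finset.sum_eq_single v]
    · rw [Finset.sum_eq_single a]
      · rw [Finset.sum_eq_single (e, i)]
        · simp
        · intro p _ hp
          simp [hp]
        · intro hp
          exact absurd (mem_nds (by omega) hi) hp
      · intro b _ hb
        simp [hb]
      · intro hb
        exact absurd (Finset.mem_range.2 (by omega)) hb
    · intro x _ hx
      refine Finset.sum_eq_zero fun a' _ => ?_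
      simp [hx]
    · intro hv
      exact absurd (mem_sb v) hv

end DEC

open DEC in
theorem dec_thm (hTYP : TYPStmt.{u}) (hGST : GSTStmt) (hGSP : GSPStmt) : DECStmt.{u} := by
  classical
  intro K _ h m n r D X g e i v a hm hr hg hv hgood
  obtain ⟨rank, hrank⟩ := D.acyclic
  have key : ∀ N : ℕ, ∀ (e i : ℕ) (v : D.V) (a : ℕ), rank v ≤ N → X.val v ≠ 0 →
      Good h m r g e i a (a + X.deg v) → Dec X h m r g e i v a (FF X v a) := by
    intro N
    induction N using Nat.strong_induction_on with
    | _ N ih =>
      intro e i v a hN hv hgood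
      have hT := hTYP K n D X v a
      obtain ⟨t1, t2, t3, t4⟩ := hT.2.2 hv
      have hG := (hGST h m r g e i a (a + X.deg v) hm).2 hgood
      have hB : e + 10 ≤ h ∧ i < 2 ^ e ∧ a + X.deg v ≤ dd h m := by
        obtain ⟨q1, q2, q3, -⟩ := hgood
        exact ⟨q1, q2, q3⟩
      rcases hgv : D.gate v with k | c | ⟨x, y⟩ | ⟨x, y⟩
      · have := t1 k hgv
        omega
      · have := t2 c hgv
        omega
      · obtain ⟨u1, u2, u3⟩ := t3 x y hgv
        have tx : (D.gate v).tail 0 = some x := by rw [hgv]; simp [Gate.tail]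
        have ty : (D.gate v).tail 1 = some y := by rw [hgv]; simp [Gate.tail]
        have hx : Dec X h m r g e i v a (FF X x a) := by
          by_cases hx0 : X.val x = 0
          · have hz := (hTYP K n D X x a).2.1 hx0
            have : FF X x a = fun _ => 0 := by
              funext w
              exact hz w
            rw [this]
            exact dec_zero e i v a
          · have hdeg := u1 hx0
            have hrk := hrank v 0 x tx
            have h1 := ih (rank x) (by omega) e i x a le_rfl hx0 (by rw [hdeg]; exact hgood)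
            have h2 := dec_lift (Hf := fun _ => 1) h1 (Inside.refl e i) 0 tx hx0 le_rfl
              (by omega) (fun w w' _ => rfl)
            simpa using h2
        have hy : Dec X h m r g e i v a (FF X y a) := by
          by_cases hy0 : X.val y = 0
          · have hz := (hTYP K n D X y a).2.1 hy0
            have : FF X y a = fun _ => 0 := by
              funext w
              exact hz w
            rw [this]
            exact dec_zero e i v a
          · have hdeg := u2 hy0
            have hrk := hrank v 1 y ty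
            have h1 := ih (rank y) (by omega) e i y a le_rfl hy0 (by rw [hdeg]; exact hgood)
            have h2 := dec_lift (Hf := fun _ => 1) h1 (Inside.refl e i) 1 ty hy0 le_rfl
              (by omega) (fun w w' _ => rfl)
            simpa using h2
        have hsum : FF X v a = fun w => FF X x a w + FF X y a w := by
          funext w
          exact u3 w
        rw [hsum]
        exact dec_add hx hy
      · obtain ⟨x0, y0, u2, u3⟩ := t4 x y hgv
        have tx : (D.gate v).tail 0 = some x := by rw [hgv]; simp [Gate.tail]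
        have ty : (D.gate v).tail 1 = some y := by rw [hgv]; simp [Gate.tail]
        have hl : lft D v = x := by simp only [lft, hgv]
        have hrr : rgt D v = y := by simp only [rgt, hgv]
        have hM : MulN X v := ⟨hv, x, y, hgv⟩
        by_cases hA : Alive h m r a (a + X.deg x) (a + X.deg x + X.deg y)
        · by_cases hS : Stop h m e i a (a + X.deg x) (a + X.deg x + X.deg y)
          · exact dec_stop hM (by omega) (by rw [hl, hrr]; exact hA) (by rw [hl, hrr]; exact hS)
              hB.1 hB.2.1 hG.2
          · have hgood' : Good h m r g e i a (a + X.deg x + X.deg y) := by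
              have : a + X.deg x + X.deg y = a + X.deg v := by omega
              rw [this]
              exact hgood
            obtain ⟨e', i', hI, hor⟩ := hGSP h m r g e i a (a + X.deg x)
              (a + X.deg x + X.deg y) hm hr hg hgood' (by omega) (by omega) hA hS
            rcases hor with h1 | h1
            · have hrk := hrank v 0 x tx
              have h2 := ih (rank x) (by omega) e' i' x a le_rfl x0 h1
              have h3 := dec_lift (Hf := FF X y (a + X.deg x)) h2 hI 0 tx x0 le_rfl (by omega) (by
                have h4 := (hTYP K n D X y (a + X.deg x)).1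
                intro w w' hw
                apply h4
                intro t ht
                apply hw
                simp only [Set.mem_union, Set.mem_Ico] at ht ⊢
                omega)
              have hprod : FF X v a = fun w => FF X y (a + X.deg x) w * FF X x a w := by
                funext w
                rw [u3 w, mul_comm]
              rw [hprod]
              exact h3
            · have hrk := hrank v 1 y ty
              have h2 := ih (rank y) (by omega) e' i' y (a + X.deg x) le_rfl y0 h1
              have h3 := dec_lift (a := a) (Hf := FF X x a) h2 hI 1 ty y0 (by omega) (by omega) (by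
                have h4 := (hTYP K n D X x a).1
                intro w w' hw
                apply h4
                intro t ht
                apply hw
                simp only [Set.mem_union, Set.mem_Ico] at ht ⊢
                omega)
              have hprod : FF X v a = fun w => FF X x a w * FF X y (a + X.deg x) w := by
                funext w
                rw [u3 w]
              rw [hprod]
              exact h3
        · exact dec_dead hM (by omega) (by rw [hl, hrr]; exact hA)
  exact key (rank v) e i v a le_rfl hv hgood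

end Pool.Agent.H81.NCH
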