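import Pool.Agent.H81.NCH.Stmts
import Pool.Agent.H81.NCH.Base

/-!
# NCH, module PAR (MP_f18ce0_lc): partner letters
-/

set_option autoImplicit false

namespace Pool.Agent.H81.NCH

namespace PAR

variable {h m : ℕ}

/-- position of the letter with index `s` of the left or right wall of `(e, i)` -/
def pos (h m : ℕ) (q : ℕ × ℕ × Bool × ℕ) : ℕ :=
  if q.2.2.1 then st h m q.1 q.2.1 + q.2.2.2 else en h m q.1 q.2.1 - 1 - q.2.2.2

/-- admissible addresses of letters -/
def Ok (h m : ℕ) (q : ℕ × ℕ × Bool × ℕ) : Prop :=
  1 ≤ q.1 ∧ q.1 ≤ h ∧ q.2.1 < 2 ^ q.1 ∧ q.2.2.2 < Wd h m (h - q.1)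

theorem pos_wall {q : ℕ × ℕ × Bool × ℕ} (hq : Ok h m q) :
    st h m q.1 q.2.1 ≤ pos h m q ∧ pos h m q < en h m q.1 q.2.1 ∧
      (q.2.2.1 = true → pos h m q < cs h m q.1 q.2.1) ∧
      (q.2.2.1 = false → ce h m q.1 q.2.1 ≤ pos h m q) := by
  obtain ⟨e, i, side, s⟩ := q
  obtain ⟨h1, h2, h3, h4⟩ := hq
  simp only at h1 h2 h3 h4
  have h5 := cs_eq_st (h := h) (m := m) h1 i
  have h6 := en_def (h := h) (m := m) e i
  have h7 := cs_le_ce (h := h) (m := m) e i
  cases side
  · simp only [pos]
    refine ⟨?_, ?_, ?_, ?_⟩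
    · simp; omega
    · simp; omega
    · simp
    · simp; omega
  · simp only [pos]
    refine ⟨?_, ?_, ?_, ?_⟩
    · simp
    · simp; omega
    · simp; omega
    · simp

theorem pos_lt_dd {q : ℕ × ℕ × Bool × ℕ} (hq : Ok h m q) : pos h m q < dd h m := by
  have h1 := pos_wall hq
  have h2 := en_le_dd (h := h) (m := m) hq.1 hq.2.1 hq.2.2.1
  omega

/-- every letter lies in a wall -/
theorem exists_letter (hh : 1 ≤ h) {t : ℕ} (ht : t < dd h m) :
    ∃ q : ℕ × ℕ × Bool × ℕ, Ok h m q ∧ pos h m q = t := by
  have key : ∀ k e i : ℕ, e + k = h → i < 2 ^ e → cs h m e i ≤ t → t < ce h m e i → e < h →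
      ∃ q : ℕ × ℕ × Bool × ℕ, Ok h m q ∧ pos h m q = t := by
    intro k
    induction k with
    | zero => intro e i h1 _ _ _ h2; omega
    | succ k ih =>
      intro e i hek hi h1 h2 he
      obtain ⟨x, hx, h3, h4⟩ : ∃ x, x < 2 ^ (e + 1) ∧ st h m (e + 1) x ≤ t ∧
          t < en h m (e + 1) x := by
        rcases Nat.lt_or_ge t (md h m e i) with h3 | h3
        · refine ⟨2 * i, by rw [pow_succ]; omega, ?_, ?_⟩
          · rw [st_left]; exact h1
          · rw [en_left]; exact h3
        · refine ⟨2 * i + 1, by rw [pow_succ]; omega, ?_, ?_⟩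
          · rw [st_right]; exact h3
          · rw [en_right he]; exact h2
      have h10 := cs_eq_st (h := h) (m := m) (e := e + 1) (by omega) x
      have h11 := en_def (h := h) (m := m) (e + 1) x
      rcases Nat.lt_or_ge t (cs h m (e + 1) x) with h5 | h5
      · refine ⟨(e + 1, x, true, t - st h m (e + 1) x), ⟨by simp, he, hx, ?_⟩, ?_⟩
        · simp only; omega
        · simp only [pos]; simp; omega
      · rcases Nat.lt_or_ge t (ce h m (e + 1) x) with h6 | h6
        · rcases Nat.lt_or_ge (e + 1) h with h7 | h7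
          · exact ih (e + 1) x (by omega) hx h5 h6 h7
          · exfalso
            have h8 : h - (e + 1) = 0 := by omega
            have h9 : ce h m (e + 1) x = cs h m (e + 1) x := by
              rw [ce_def, h8]; rfl
            omega
        · refine ⟨(e + 1, x, false, en h m (e + 1) x - 1 - t), ⟨by simp, he, hx, ?_⟩, ?_⟩
          · simp only; omega
          · simp only [pos]; simp; omega
  refine key h 0 0 (by omega) (by simp) ?_ ?_ hh
  · rw [cs_root]; omega
  · rw [ce_root]; exact ht

theorem same_node {e i i' t : ℕ} (he : 1 ≤ e) (he' : e ≤ h) (hi : i < 2 ^ e) (hi' : i' < 2 ^ e)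
    (h1 : st h m e i ≤ t) (h2 : t < en h m e i) (h3 : st h m e i' ≤ t) (h4 : t < en h m e i') :
    i = i' := by
  rcases lt_trichotomy i i' with h5 | h5 | h5
  · have := disjoint_same (h := h) (m := m) he he' h5 hi'
    omega
  · exact h5
  · have := disjoint_same (h := h) (m := m) he he' h5 hi
    omega

theorem not_lt_depth {q q' : ℕ × ℕ × Bool × ℕ} (hq : Ok h m q) (hq' : Ok h m q')
    (heq : pos h m q = pos h m q') : ¬ q.1 < q'.1 := by
  intro hlt
  have h1 := pos_wall hq
  have h2 := pos_wall hq'
  have h3 : Inside q.1 (q'.2.1 / 2 ^ (q'.1 - q.1)) q'.1 q'.2.1 := ⟨hlt.le, rfl⟩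
  have h4 := nested (m := m) h3 hlt hq'.2.1
  have h5 := h3.pow_lt hq'.2.2.1
  have h6 := st_le_cs (h := h) (m := m) q.1 (q'.2.1 / 2 ^ (q'.1 - q.1))
  have h7 := ce_le_en (h := h) (m := m) q.1 (q'.2.1 / 2 ^ (q'.1 - q.1))
  have h8 := same_node (h := h) (m := m) hq.1 hq.2.1 hq.2.2.1 h5 h1.1 h1.2.1 (by omega) (by omega)
  rw [← h8] at h4
  rcases Bool.eq_false_or_eq_true q.2.2.1 with h9 | h9
  · have := h1.2.2.1 h9
    omega
  · have := h1.2.2.2 h9
    omega

/-- the address of a letter is unique -/
theorem pos_inj {q q' : ℕ × ℕ × Bool × ℕ} (hq : Ok h m q) (hq' : Ok h m q')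
    (heq : pos h m q = pos h m q') : q = q' := by
  have h1 := not_lt_depth hq hq' heq
  have h2 := not_lt_depth hq' hq heq.symm
  have h3 : q.1 = q'.1 := by omega
  obtain ⟨e, i, side, s⟩ := q
  obtain ⟨e', i', side', s'⟩ := q'
  simp only at h3
  subst h3
  have h4 := pos_wall hq
  have h5 := pos_wall hq'
  have h6 := same_node (h := h) (m := m) (t := pos h m (e, i, side, s)) hq.1 hq.2.1 hq.2.2.1
    hq'.2.2.1 h4.1 h4.2.1 (by rw [heq]; exact h5.1) (by rw [heq]; exact h5.2.1)
  simp only at h6
  subst h6
  simp only at h4 h5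
  have h7 := cs_le_ce (h := h) (m := m) e i
  have h8 := cs_eq_st (h := h) (m := m) hq.1 i
  have h9 := en_def (h := h) (m := m) e i
  simp only at h8
  have h10 := hq.2.2.2
  have h11 := hq'.2.2.2
  simp only at h10 h11
  cases side <;> cases side'
  · simp only [pos] at heq
    simp at heq
    have : s = s' := by omega
    rw [this]
  · have h12 := h4.2.2.2 rfl
    have h13 := h5.2.2.1 rfl
    omega
  · have h12 := h5.2.2.2 rfl
    have h13 := h4.2.2.1 rfl
    omega
  · simp only [pos] at heq
    simp at heq
    rw [heq]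

/-- the address of the partner letter -/
def prt (h m : ℕ) (q : ℕ × ℕ × Bool × ℕ) : ℕ × ℕ × Bool × ℕ :=
  if q.2.2.2 = NH h m q.1 then
    (if q.2.2.1 = false ∧ q.2.1 % 2 = 0 then (q.1, q.2.1 + 1, true, q.2.2.2)
     else if q.2.2.1 = true ∧ q.2.1 % 2 = 1 then (q.1, q.2.1 - 1, false, q.2.2.2)
     else q)
  else (q.1, q.2.1, !q.2.2.1, q.2.2.2)

theorem prt_ok {q : ℕ × ℕ × Bool × ℕ} (hq : Ok h m q) : Ok h m (prt h m q) := by
  obtain ⟨e, i, side, s⟩ := q
  obtain ⟨h1, h2, h3, h4⟩ := hq
  simp only at h1 h2 h3 h4
  unfold prt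
  simp only
  split_ifs with h5 h6 h7
  · refine ⟨h1, h2, ?_, h4⟩
    simp only
    obtain ⟨e', rfl⟩ : ∃ e', e = e' + 1 := ⟨e - 1, by omega⟩
    rw [pow_succ] at h3 ⊢
    omega
  · refine ⟨h1, h2, ?_, h4⟩
    simp only
    omega
  · exact ⟨h1, h2, h3, h4⟩
  · exact ⟨h1, h2, h3, h4⟩

theorem prt_prt (q : ℕ × ℕ × Bool × ℕ) : prt h m (prt h m q) = q := by
  obtain ⟨e, i, side, s⟩ := q
  unfold prt
  simp only
  by_cases h5 : s = NH h m e
  · simp only [if_pos h5]
    by_cases h6 : side = false ∧ i % 2 = 0
    · simp only [if_pos h6]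
      obtain ⟨rfl, h7⟩ := h6
      have h8 : (i + 1) % 2 = 1 := by omega
      simp [h5, h8]
    · simp only [if_neg h6]
      by_cases h7 : side = true ∧ i % 2 = 1
      · simp only [if_pos h7]
        obtain ⟨rfl, h7⟩ := h7
        have h8 : (i - 1) % 2 = 0 := by omega
        simp [h5, h8]
        omega
      · simp only [if_neg h7, if_pos h5, if_neg h6]
  · simp [h5]

open Classical in
/-- the partner of a position -/
noncomputable def par (h m t : ℕ) : ℕ :=
  if hh : ∃ q : ℕ × ℕ × Bool × ℕ, Ok h m q ∧ pos h m q = t then pos h m (prt h m hh.choose) else t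

theorem par_pos {q : ℕ × ℕ × Bool × ℕ} (hq : Ok h m q) :
    par h m (pos h m q) = pos h m (prt h m q) := by
  have hh : ∃ q' : ℕ × ℕ × Bool × ℕ, Ok h m q' ∧ pos h m q' = pos h m q := ⟨q, hq, rfl⟩
  unfold par
  rw [dif_pos hh]
  have h1 := hh.choose_spec
  have h2 := pos_inj h1.1 hq h1.2
  rw [h2]

theorem sgn_cases (e i : ℕ) : sgn e i = 1 ∨ sgn e i = -1 := by
  unfold sgn
  split_ifs
  · exact neg_one_pow_eq_or ℤ _
  · exact neg_one_pow_eq_or ℤ _

end PAR

open PAR in
theorem par_thm (hWTS : WTSStmt) : PARStmt := by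
  classical
  intro h m hh hm
  refine ⟨par h m, ?_, ?_, ?_⟩
  · intro t ht
    obtain ⟨q, hq, rfl⟩ := exists_letter hh ht
    rw [par_pos hq, par_pos (prt_ok hq), prt_prt]
    exact ⟨pos_lt_dd (prt_ok hq), rfl⟩
  · intro r t ht
    obtain ⟨q, hq, rfl⟩ := exists_letter hh ht
    rw [par_pos hq]
    obtain ⟨e, i, side, s⟩ := q
    obtain ⟨h1, h2, h3, h4⟩ := hq
    simp only at h1 h2 h3 h4
    have hw := hWTS h m r e i hm h1 h2 h3
    rcases sgn_cases e i with hsg | hsg
    all_goals
      by_cases h5 : s = NH h m e
      · subst h5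
        cases side
        · by_cases h6 : i % 2 = 0
          · have h7 : i + 1 < 2 ^ e := by
              obtain ⟨e', rfl⟩ : ∃ e', e = e' + 1 := ⟨e - 1, by omega⟩
              rw [pow_succ] at h3 ⊢
              omega
            have hw' := hWTS h m r e (i + 1) hm h1 h2 h7
            have h8 : (i + 1) % 2 = 1 := by omega
            have h9 : ¬ i % 2 = 1 := by omega
            have ha := hw.2.2
            have hb := hw'.2.1
            rw [if_neg h9] at ha
            rw [if_pos h8] at hb
            simp only [prt, pos]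
            simp [h6, ha, hb]
          · have h9 : i % 2 = 1 := by omega
            have ha := hw.2.2
            rw [if_pos h9] at ha
            simp only [prt, pos]
            simp [h9, ha]
        · by_cases h6 : i % 2 = 1
          · have h7 : i - 1 < 2 ^ e := by omega
            have hw' := hWTS h m r e (i - 1) hm h1 h2 h7
            have h8 : ¬ (i - 1) % 2 = 1 := by omega
            have ha := hw.2.1
            have hb := hw'.2.2
            rw [if_pos h6] at ha
            rw [if_neg h8] at hb
            simp only [prt, pos]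
            simp [h6, ha, hb]
          · have h9 : i % 2 = 0 := by omega
            have ha := hw.2.1
            rw [if_neg h6] at ha
            simp only [prt, pos]
            simp [h9, ha]
      · have ha := (hw.1 s h4 h5).1
        have hb := (hw.1 s h4 h5).2
        rw [hsg] at ha hb
        cases side
        · simp only [prt, pos]
          simp only [if_neg h5]
          simp only [Bool.not_false, if_true, Bool.false_eq_true, if_false]
          rw [ha, hb]
          split_ifs <;> simp
        · simp only [prt, pos]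
          simp only [if_neg h5]
          simp only [Bool.not_true, if_true, Bool.false_eq_true, if_false]
          rw [ha, hb]
          split_ifs <;> simp
  · intro n _ r w hw0 hw1
    constructor
    · rintro ⟨hv1, hv2⟩ t ht hpos
      obtain ⟨q, hq, rfl⟩ := exists_letter hh ht
      rw [par_pos hq]
      obtain ⟨e, i, side, s⟩ := q
      obtain ⟨h1, h2, h3, h4⟩ := hq
      simp only at h1 h2 h3 h4
      by_cases h5 : s = NH h m e
      · subst h5
        have hw := hWTS h m r e i hm h1 h2 h3
        cases side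
        · by_cases h6 : i % 2 = 0
          · obtain ⟨e', rfl⟩ : ∃ e', e = e' + 1 := ⟨e - 1, by omega⟩
            have h7 := (hv2 e' (i / 2) (by omega) (by rw [pow_succ] at h3; omega)).1
            have h8 : 2 * (i / 2) = i := by omega
            rw [h8] at h7
            simp only [prt, pos]
            simp [h6, h7]
          · simp only [prt, pos]
            simp [h6]
        · by_cases h6 : i % 2 = 1
          · exfalso
            have ha := hw.2.1
            rw [if_pos h6] at ha
            simp only [pos] at hpos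
            simp only [if_true] at hpos
            rw [ha] at hpos
            omega
          · simp only [prt, pos]
            simp [h6]
      · have ha := hv1 e i h1 h2 h3 s h4 h5
        cases side
        · simp only [prt, pos]
          simp [h5, ha]
        · simp only [prt, pos]
          simp [h5, ha]
    · intro hP
      refine ⟨?_, ?_⟩
      · intro e i h1 h2 h3 s h4 h5
        have hw := (hWTS h m r e i hm h1 h2 h3).1 s h4 h5
        have hq1 : Ok h m (e, i, true, s) := ⟨h1, h2, h3, h4⟩
        have hq2 : Ok h m (e, i, false, s) := ⟨h1, h2, h3, h4⟩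
        have e1 : pos h m (e, i, true, s) = st h m e i + s := by simp [pos]
        have e2 : pos h m (e, i, false, s) = en h m e i - 1 - s := by simp [pos]
        have p1 : prt h m (e, i, true, s) = (e, i, false, s) := by simp [prt, h5]
        have p2 : prt h m (e, i, false, s) = (e, i, true, s) := by simp [prt, h5]
        have d1 := pos_lt_dd hq1
        have d2 := pos_lt_dd hq2
        have q1 := par_pos hq1
        have q2 := par_pos hq2
        rw [p1, e1, e2] at q1
        rw [p2, e1, e2] at q2
        rw [e1] at d1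
        rw [e2] at d2
        by_cases hk : Kept h m e i (r e i) s
        · rw [if_pos hk, if_pos hk] at hw
          rcases sgn_cases e i with hsg | hsg
          · rw [hsg] at hw
            have := hP _ d1 (by rw [hw.1]; norm_num)
            rw [q1] at this
            exact this
          · rw [hsg] at hw
            have := hP _ d2 (by rw [hw.2]; norm_num)
            rw [q2] at this
            exact this.symm
        · rw [if_neg hk, if_neg hk] at hw
          rw [hw0 _ d1 hw.1, hw0 _ d2 hw.2]
      · intro e i he hi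
        have hi1 : 2 * i < 2 ^ (e + 1) := by rw [pow_succ]; omega
        have hi2 : 2 * i + 1 < 2 ^ (e + 1) := by rw [pow_succ]; omega
        have hwl := hWTS h m r (e + 1) (2 * i) hm (by omega) he hi1
        have hwr := hWTS h m r (e + 1) (2 * i + 1) hm (by omega) he hi2
        have hs : NH h m (e + 1) < Wd h m (h - (e + 1)) := by
          rw [Wd_eq]; omega
        have k1 : ¬ (2 * i) % 2 = 1 := by omega
        have k2 : (2 * i + 1) % 2 = 1 := by omega
        rw [if_neg k1, if_neg k1] at hwl
        rw [if_pos k2, if_pos k2] at hwr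
        have a1 : Ok h m (e + 1, 2 * i, false, NH h m (e + 1)) := ⟨by simp, he, hi1, hs⟩
        have a2 : Ok h m (e + 1, 2 * i + 1, true, NH h m (e + 1)) := ⟨by simp, he, hi2, hs⟩
        have a3 : Ok h m (e + 1, 2 * i, true, NH h m (e + 1)) := ⟨by simp, he, hi1, hs⟩
        have a4 : Ok h m (e + 1, 2 * i + 1, false, NH h m (e + 1)) := ⟨by simp, he, hi2, hs⟩
        have d1 := pos_lt_dd a1
        have d2 := pos_lt_dd a2
        have d3 := pos_lt_dd a3
        have d4 := pos_lt_dd a4
        have p1 : prt h m (e + 1, 2 * i, false, NH h m (e + 1)) =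
            (e + 1, 2 * i + 1, true, NH h m (e + 1)) := by simp [prt]
        have q1 := par_pos a1
        rw [p1] at q1
        simp only [pos] at d1 d2 d3 d4 q1
        simp only [if_true, Bool.false_eq_true, if_false] at d1 d2 d3 d4 q1
        refine ⟨?_, ?_, ?_, ?_⟩
        · have := hP _ d1 (by rw [hwl.2.2]; norm_num)
          rw [q1] at this
          exact this
        · exact hw1 _ d2 (by rw [hwr.2.1]; norm_num)
        · exact hw0 _ d3 hwl.2.1
        · exact hw0 _ d4 hwr.2.2

end Pool.Agent.H81.NCH
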