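import Pool.Agent.H81.NCH.Stmts

/-!
# NCH, module RRF (MP_f18ce0_lc): the numbers of a configuration
-/

set_option autoImplicit false

namespace Pool.Agent.H81.NCH

theorem rrf_thm : RRFStmt := by
  intro h m ω hm
  refine ⟨?_, ?_⟩
  · intro e i
    unfold rr
    split_ifs with hh
    · exact ⟨by omega, (ω (⟨e, hh.1⟩, ⟨i, hh.2⟩)).isLt⟩
    · exact ⟨le_refl 1, hm⟩
  · intro S η e i hS
    unfold rr
    split_ifs with hh
    · simp [mixS, hS]
    · rfl

end Pool.Agent.H81.NCH
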